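import Pool.Agent.MP_60c1b5_an.H51.Main

namespace Pool.Agent.Results.MP_60c1b5_an.Hexagon

open Pool.Agent.MP_60c1b5_an.H51

theorem result (k : ℤ) (hk : k ≠ 0) :
    {z | ∃ μ, Inv23 μ ∧ coef μ k = z} = hexagon ∧
    {z | ∃ ν, Inv23 ν ∧ FinSupp ν ∧ coef ν k = z} = hexagon ∧
    ∀ μ, Inv23 μ → coef μ k ∈ frontier hexagon → FinSupp μ := by
  obtain ⟨h1, h2⟩ := main k hk
  refine ⟨Set.Subset.antisymm ?_ fun z hz => ?_, Set.Subset.antisymm ?_ h2, fun μ hμ h => ?_⟩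
  · rintro _ ⟨μ, hμ, rfl⟩
    exact (h1 μ hμ).1
  · obtain ⟨ν, a, _, b⟩ := h2 z hz
    exact ⟨ν, a, b⟩
  · rintro _ ⟨μ, hμ, _, rfl⟩
    exact (h1 μ hμ).1
  · by_contra hc
    exact h.2 ((h1 μ hμ).2 hc)

end Pool.Agent.Results.MP_60c1b5_an.Hexagon
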