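import Pool.Agent.MP_60c1b5_an.H73.Erg
import Pool.Agent.MP_60c1b5_an.H73.LinCx

namespace Pool.Agent.Results.MP_60c1b5_an.LowComplexity

open MeasureTheory Pool.Agent.MP_60c1b5_an.H73

theorem result (μ : ProbabilityMeasure UnitAddCircle)
    (h2 : Measure.map (fun x : UnitAddCircle => (2 : ℕ) • x) (μ : Measure UnitAddCircle)
      = (μ : Measure UnitAddCircle))
    (h3 : Measure.map (fun x : UnitAddCircle => (3 : ℕ) • x) (μ : Measure UnitAddCircle)
      = (μ : Measure UnitAddCircle))
    (h : ∀ᵐ x ∂(μ : Measure UnitAddCircle),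
      ∃ p : ℕ, p.Prime ∧ (LinearComplexity p x ∨ Compressible p x)) :
    μ ∈ closure {ν : ProbabilityMeasure UnitAddCircle |
      Measure.map (fun x : UnitAddCircle => (2 : ℕ) • x) (ν : Measure UnitAddCircle)
          = (ν : Measure UnitAddCircle) ∧
      Measure.map (fun x : UnitAddCircle => (3 : ℕ) • x) (ν : Measure UnitAddCircle)
          = (ν : Measure UnitAddCircle) ∧
      ∃ S : Finset UnitAddCircle, (ν : Measure UnitAddCircle) ((↑S : Set UnitAddCircle)ᶜ) = 0} := by
  refine mem_closure_of_countable μ h2 h3 countable_fin ?_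
  have key : ∀ p : ℕ, ∀ᵐ x ∂(μ : Measure UnitAddCircle),
      p.Prime → Compressible p x → IsOfFinAddOrder x := by
    intro p
    by_cases hp : p.Prime
    · by_cases e : p = 2
      · filter_upwards [ae_fin_order hp (q := 3) (by norm_num) (by rw [e]; norm_num) μ h3]
          with x hx _ using hx
      · filter_upwards [ae_fin_order hp (q := 2) le_rfl
          ((Nat.coprime_primes hp Nat.prime_two).2 e) μ h2] with x hx _ using hx
    · exact Filter.Eventually.of_forall fun x h => absurd h hp
  filter_upwards [h, ae_all_iff.2 key] with x ⟨p, hp, h1⟩ h2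
  exact h2 p hp (h1.elim LinearComplexity.compressible id)

end Pool.Agent.Results.MP_60c1b5_an.LowComplexity
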