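import Pool.Agent.MP_60c1b5_an.H73.Erg
import Pool.Agent.MP_60c1b5_an.H93.Main

namespace Pool.Agent.Results.MP_60c1b5_an.NonDense

open MeasureTheory Pool.Agent.MP_60c1b5_an

theorem result (μ : ProbabilityMeasure UnitAddCircle)
    (h2 : Measure.map (fun x : UnitAddCircle => (2 : ℕ) • x) (μ : Measure UnitAddCircle)
      = (μ : Measure UnitAddCircle))
    (h3 : Measure.map (fun x : UnitAddCircle => (3 : ℕ) • x) (μ : Measure UnitAddCircle)
      = (μ : Measure UnitAddCircle))
    (h : ∀ᵐ x ∂(μ : Measure UnitAddCircle),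
      ∃ b : ℕ, 2 ≤ b ∧ ¬ Dense (Set.range fun n : ℕ => b ^ n • x)) :
    μ ∈ closure {ν : ProbabilityMeasure UnitAddCircle |
      Measure.map (fun x : UnitAddCircle => (2 : ℕ) • x) (ν : Measure UnitAddCircle)
          = (ν : Measure UnitAddCircle) ∧
      Measure.map (fun x : UnitAddCircle => (3 : ℕ) • x) (ν : Measure UnitAddCircle)
          = (ν : Measure UnitAddCircle) ∧
      ∃ S : Finset UnitAddCircle, (ν : Measure UnitAddCircle) ((↑S : Set UnitAddCircle)ᶜ) = 0} := by
  refine H73.mem_closure_of_countable μ h2 h3 H73.countable_fin ?_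
  have key : ∀ b : ℕ, ∀ᵐ x ∂(μ : Measure UnitAddCircle),
      2 ≤ b → ¬ IsOfFinAddOrder x → DenseRange fun n : ℕ => b ^ n • x := by
    intro b
    by_cases hb : 2 ≤ b
    · rcases H93.exists_indep b with e | e
      · filter_upwards [H93.ae_dense_orbit hb le_rfl e μ ⟨(continuous_nsmul 2).measurable, h2⟩]
          with x hx _ using hx
      · filter_upwards [H93.ae_dense_orbit hb (by norm_num) e μ
          ⟨(continuous_nsmul 3).measurable, h3⟩] with x hx _ using hx
    · exact Filter.Eventually.of_forall fun x h => absurd h hb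
  filter_upwards [h, ae_all_iff.2 key] with x ⟨b, hb, h1⟩ h2
  by_contra e
  exact h1 (h2 b hb e)

end Pool.Agent.Results.MP_60c1b5_an.NonDense
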