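import Pool.Agent.MP_60c1b5_an.H72.Fin

namespace Pool.Agent.Results.MP_60c1b5_an.QuadraticComplexity

open MeasureTheory Filter

theorem result : ∃ ω : ℕ → ℝ, Tendsto ω atTop atTop ∧ ∀ μ : ProbabilityMeasure UnitAddCircle,
    Measure.map (fun x : UnitAddCircle => (2 : ℕ) • x) (μ : Measure UnitAddCircle)
      = (μ : Measure UnitAddCircle) →
    Measure.map (fun x : UnitAddCircle => (3 : ℕ) • x) (μ : Measure UnitAddCircle)
      = (μ : Measure UnitAddCircle) →
    (∀ ε : ℝ, 0 < ε → ∀ᶠ n : ℕ in atTop, ∃ F : Finset UnitAddCircle,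
      (F.card : ℝ) ≤ ω n * n ^ 2 ∧
      (μ : Measure UnitAddCircle) (⋃ y ∈ F, Metric.closedBall y (1 / 2 ^ n))ᶜ ≤
        ENNReal.ofReal ε) →
    μ ∈ closure {ν : ProbabilityMeasure UnitAddCircle |
      Measure.map (fun x : UnitAddCircle => (2 : ℕ) • x) (ν : Measure UnitAddCircle)
          = (ν : Measure UnitAddCircle) ∧
      Measure.map (fun x : UnitAddCircle => (3 : ℕ) • x) (ν : Measure UnitAddCircle)
          = (ν : Measure UnitAddCircle) ∧
      ∃ S : Finset UnitAddCircle, (ν : Measure UnitAddCircle) ((↑S : Set UnitAddCircle)ᶜ) = 0} := by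
  obtain ⟨ω, h1, h2⟩ := Pool.Agent.MP_60c1b5_an.H72.main
  refine ⟨fun n => ω (n / 3) / 9, (tendsto_natCast_atTop_atTop.comp (h1.comp
    (Nat.tendsto_div_const_atTop three_ne_zero))).atTop_div_const (by norm_num),
    fun μ a b h => h2 μ ⟨a, b⟩ fun ε hε => ?_⟩
  have h3 : Tendsto (fun n : ℕ => 3 * n) atTop atTop :=
    tendsto_atTop_mono (fun n => by simp only [id]; omega) tendsto_id
  filter_upwards [h3.eventually (h ε hε)] with n ⟨F, c1, c2⟩
  refine ⟨F, ?_, ENNReal.toReal_le_of_le_ofReal hε.le (le_trans (measure_mono ?_) c2)⟩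
  · rw [Nat.mul_div_cancel_left n three_pos] at c1
    push_cast at c1
    exact_mod_cast (by linarith : (F.card : ℝ) ≤ ω n * n ^ 2)
  · refine Set.compl_subset_compl.2 (Set.iUnion₂_mono fun y _ =>
      Metric.closedBall_subset_closedBall ?_)
    rw [pow_mul]
    gcongr
    norm_num

end Pool.Agent.Results.MP_60c1b5_an.QuadraticComplexity
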